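import Mathlib
import Pool.Agent.Helper376.LC.Defs

set_option autoImplicit false

/-!
# Property (PH) from focal and lineal actions
-/

namespace Pool.Agent.Q104.PH

open Pool.Agent.Helper376.LC

/-- The action of `G` on `X` is isometric. -/
def Isometric (G : Type) [Group G] (X : Type) [MetricSpace X] [MulAction G X] : Prop :=
  ∀ (g : G) (x y : X), dist (g • x) (g • y) = dist x y

/-- Some orbit is coarsely dense. -/
def Cobounded (G : Type) [Group G] (X : Type) [MetricSpace X] [MulAction G X] : Prop :=
  ∃ (x : X) (R : ℝ), ∀ y : X, ∃ g : G, dist y (g • x) ≤ R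

/-- The element `g` is loxodromic: `n ↦ g ^ n • x` is a quasi-isometric embedding. -/
def Loxodromic {G : Type} [Group G] (X : Type) [MetricSpace X] [MulAction G X] (g : G) : Prop :=
  ∃ x : X, ∃ c : ℝ, 0 < c ∧ ∀ n : ℕ, c * n ≤ dist x (g ^ n • x)

/-- The element `g` fixes the boundary point `ξ`: for some sequence `u` converging to `ξ` the
sequence `g u` also converges to `ξ`. -/
def Fixes {G : Type} [Group G] {X : Type} [MetricSpace X] [MulAction G X] (g : G)
    (ξ : Boundary X) : Prop :=
  ∃ u v : GromovSeq X, u.lim = ξ ∧ v.lim = ξ ∧ ∀ n, v.seq n = g • u.seq n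

/-- Lineal actions: there is a loxodromic element, and all loxodromic elements have the same fixed
points in the boundary. -/
def Lineal (G : Type) [Group G] (X : Type) [MetricSpace X] [MulAction G X] : Prop :=
  (∃ g : G, Loxodromic X g) ∧
    ∀ g h : G, Loxodromic X g → Loxodromic X h → ∀ ξ : Boundary X, Fixes g ξ ↔ Fixes h ξ

/-- Focal actions: the action is not lineal, there is a loxodromic element, and any two loxodromic
elements share a common fixed point in the boundary. -/
def Focal (G : Type) [Group G] (X : Type) [MetricSpace X] [MulAction G X] : Prop :=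
  ¬ Lineal G X ∧ (∃ g : G, Loxodromic X g) ∧
    ∀ g h : G, Loxodromic X g → Loxodromic X h → ∃ ξ : Boundary X, Fixes g ξ ∧ Fixes h ξ

/-- Property (PH') from focal and lineal actions: finitely many hyperbolic spaces, each with a
cobounded isometric action which is focal or lineal, such that the diagonal action on the product
with the `ℓ¹`-metric is metrically proper. -/
def PH' (G : Type) [Group G] : Prop :=
  ∃ (n : ℕ) (X : Fin n → Type) (_ : ∀ i, MetricSpace (X i)) (_ : ∀ i, MulAction G (X i)),
    (∀ i, GeodesicSpace (X i) ∧ GromovHyperbolic (X i) ∧ Isometric G (X i) ∧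
      Cobounded G (X i) ∧ (Focal G (X i) ∨ Lineal G (X i))) ∧
    ∀ B : Set (∀ i, X i), (∃ R : ℝ, ∀ x ∈ B, ∀ y ∈ B, ∑ i, dist (x i) (y i) ≤ R) →
      {g : G | ∃ x ∈ B, (fun i => g • x i) ∈ B}.Finite

/-- Property (PH) from focal and lineal actions: a subgroup of finite index has property (PH') from
focal and lineal actions. -/
def PH (G : Type) [Group G] : Prop := ∃ G₀ : Subgroup G, G₀.FiniteIndex ∧ PH' G₀

/-- The group `G` is amenable: there is a finitely additive left invariant probability measure on
all subsets of `G`. -/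
def Amenable (G : Type) [Group G] : Prop :=
  ∃ μ : Set G → ℝ, (∀ A, 0 ≤ μ A) ∧ μ Set.univ = 1 ∧
    (∀ A B, Disjoint A B → μ (A ∪ B) = μ A + μ B) ∧
    ∀ (a : G) (A : Set G), μ {g | a * g ∈ A} = μ A

end Pool.Agent.Q104.PH
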