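import Pool.Agent.Helper376.LC.Geo
import Pool.Agent.Q104.PH.Defs
import Pool.Agent.Q104.QP.Word

set_option autoImplicit false

/-!
# Geometric realisations of Cayley graphs
-/

open Pointwise

namespace Pool.Agent.Q104.PH

open Pool.Agent.Helper376.LC Pool.Agent.Q104.QP

open Realize in
/-- Every connected graph has a geodesic realisation. -/
theorem exists_real {V : Type} (Γ : SimpleGraph V) (hconn : Γ.Connected)
    {G : Type} [Group G] [MulAction G V]
    (hG : ∀ (g : G) (a b : V), Γ.Adj (g • a) (g • b) ↔ Γ.Adj a b) :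
    ∃ (X : Type) (_ : MetricSpace X) (_ : MulAction G X) (ι : V → X),
      GeodesicSpace X ∧
      (∀ (g : G) (x y : X), dist (g • x) (g • y) = dist x y) ∧
      (∀ a b, dist (ι a) (ι b) = (Γ.dist a b : ℝ)) ∧
      (∀ (g : G) (a : V), ι (g • a) = g • ι a) ∧
      (∀ x : X, ∃ a, dist x (ι a) ≤ 1) := by
  let act' := act hG hconn
  have : IsIsometricSMul G (RP Γ hconn) := ⟨fun g => Isometry.of_dist_eq (act_isom hG hconn g)⟩
  refine ⟨RX Γ hconn, inferInstance, inferInstance, fun v => mk hconn (vt v),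
    geodesic hconn, ?_, ?_, ?_, ?_⟩
  · intro g x y
    obtain ⟨p, rfl⟩ := mk_surj hconn x
    obtain ⟨q, rfl⟩ := mk_surj hconn y
    have key : ∀ p q : RP Γ hconn, dist (g • (SeparationQuotient.mk p)) (g • (SeparationQuotient.mk q)) =
        dist (SeparationQuotient.mk p) (SeparationQuotient.mk q) := by
      intro p q
      exact (SeparationQuotient.dist_mk (g • p) (g • q)).trans
        ((act_isom hG hconn g p q).trans (SeparationQuotient.dist_mk p q).symm)
    exact key p q
  · intro a b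
    rw [dist_mk, D_vt_vt hconn]
  · intro g a
    rfl
  · intro x
    obtain ⟨p, rfl⟩ := mk_surj hconn x
    refine ⟨p.a, ?_⟩
    rw [dist_mk]
    exact (D_vt p false).trans (wt_le_one p false)

section cayley

variable {G : Type} [Group G]

/-- The Cayley graph. -/
def cay (X : Set G) : SimpleGraph G where
  Adj a b := a ≠ b ∧ a⁻¹ * b ∈ X ∪ X⁻¹
  symm := ⟨by
    rintro a b ⟨h1, h2⟩
    refine ⟨h1.symm, ?_⟩
    have : b⁻¹ * a = (a⁻¹ * b)⁻¹ := by group
    rw [this]
    rcases h2 with h | h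
    · right; simpa using h
    · left; simpa using h⟩
  loopless := ⟨fun a h => h.1 rfl⟩

theorem exists_walk (X : Set G) (a : G) (n : ℕ) : ∀ g ∈ (X ∪ X⁻¹) ^ n,
    ∃ w : (cay X).Walk a (a * g), w.length ≤ n := by
  induction n with
  | zero =>
    intro g hg
    rw [pow_zero] at hg
    have : g = 1 := hg
    subst this
    rw [mul_one]
    exact ⟨SimpleGraph.Walk.nil, le_rfl⟩
  | succ n ih =>
    intro g hg
    rw [pow_succ] at hg
    obtain ⟨x, hx, y, hy, rfl⟩ := hg
    obtain ⟨w, hw⟩ := ih x hx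
    show ∃ w : (cay X).Walk a (a * (x * y)), w.length ≤ n + 1
    by_cases h1 : y = 1
    · subst h1
      rw [mul_one]
      exact ⟨w, hw.trans (Nat.le_succ n)⟩
    · have h2 : (cay X).Adj (a * x) (a * (x * y)) := by
        refine ⟨?_, ?_⟩
        · intro h
          rw [← mul_assoc, left_eq_mul] at h
          exact h1 h
        · have : (a * x)⁻¹ * (a * (x * y)) = y := by group
          rw [this]
          exact hy
      refine ⟨w.append (SimpleGraph.Walk.cons h2 SimpleGraph.Walk.nil), ?_⟩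
      rw [SimpleGraph.Walk.length_append]
      simpa using hw

theorem cay_connected {X : Set G} (hX : Subgroup.closure X = ⊤) : (cay X).Connected := by
  rw [SimpleGraph.connected_iff]
  refine ⟨fun a b => ?_, ⟨1⟩⟩
  obtain ⟨w, -⟩ := exists_walk X a _ (a⁻¹ * b) (wl_spec hX _)
  rw [mul_inv_cancel_left] at w
  exact ⟨w⟩

theorem wl_le_walk {X : Set G} (hX : Subgroup.closure X = ⊤) {a b : G} (w : (cay X).Walk a b) :
    wl X (a⁻¹ * b) ≤ w.length := by
  induction w with
  | nil => rw [inv_mul_cancel, wl_one]; exact Nat.zero_le _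
  | @cons u v c h w ih =>
    have h1 := wl_mul hX (u⁻¹ * v) (v⁻¹ * c)
    have e : u⁻¹ * v * (v⁻¹ * c) = u⁻¹ * c := by group
    rw [e] at h1
    have h2 : wl X (u⁻¹ * v) ≤ 1 := wl_le (by rw [pow_one]; exact h.2)
    rw [SimpleGraph.Walk.length_cons]
    omega

theorem cay_dist {X : Set G} (hX : Subgroup.closure X = ⊤) (a b : G) :
    (cay X).dist a b = wl X (a⁻¹ * b) := by
  apply le_antisymm
  · obtain ⟨w, hw⟩ := exists_walk X a _ (a⁻¹ * b) (wl_spec hX _)
    have e : a * (a⁻¹ * b) = b := by group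
    have h1 := (SimpleGraph.dist_le w).trans hw
    rwa [e] at h1
  · obtain ⟨w, hw⟩ := (cay_connected hX).exists_walk_length_eq_dist a b
    rw [← hw]
    exact wl_le_walk hX w

/-- The geodesic realisation of the Cayley graph. -/
theorem exists_cayley {X : Set G} (hX : Subgroup.closure X = ⊤) :
    ∃ (Y : Type) (_ : MetricSpace Y) (_ : MulAction G Y) (ι : G → Y),
      GeodesicSpace Y ∧ Isometric G Y ∧
      (∀ a b, dist (ι a) (ι b) = (wl X (a⁻¹ * b) : ℝ)) ∧
      (∀ (g : G) (a : G), ι (g * a) = g • ι a) ∧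
      (∀ x : Y, ∃ a, dist x (ι a) ≤ 1) := by
  obtain ⟨Y, m, act, ι, h1, h2, h3, h4, h5⟩ := exists_real (cay X) (cay_connected hX) (G := G)
    (fun g a b => by
      show (g * a ≠ g * b ∧ (g * a)⁻¹ * (g * b) ∈ X ∪ X⁻¹) ↔ (a ≠ b ∧ a⁻¹ * b ∈ X ∪ X⁻¹)
      have e : (g * a)⁻¹ * (g * b) = a⁻¹ * b := by group
      rw [e, Ne, mul_right_inj])
  refine ⟨Y, m, act, ι, h1, h2, fun a b => ?_, h4, h5⟩
  rw [h3, cay_dist hX]

end cayley

end Pool.Agent.Q104.PH
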