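import Pool.Agent.Helper376.LC.Bdry
import Pool.Agent.Q104.PH.Cay
import Pool.Agent.Q104.HS.Bdry

set_option autoImplicit false

/-!
# The action attached to a horocyclic datum is focal
-/

open Pointwise

namespace Pool.Agent.Q104.PH

open Pool.Agent.Helper376.LC Pool.Agent.Q104.QP Pool.Agent.Q104.HS

variable {G : Type} [Group G]

/-- The pull back of a horocyclic datum along an isomorphism. -/
noncomputable def comap {G' : Type} [Group G'] (e : G' ≃* G) (H : Horo G) : Horo G' where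
  lam := H.lam
  one_lt := H.one_lt
  s g := H.s (e g)
  s_mul g h := by rw [map_mul, H.s_mul]
  ν g := H.ν (e g)
  ν_nonneg g := H.ν_nonneg _
  ν_one := by rw [map_one, H.ν_one]
  ν_mul g h := by rw [map_mul]; exact H.ν_mul _ _
  ν_inv g := by rw [map_inv]; exact H.ν_inv _
  t := e.symm H.t
  s_t := by rw [MulEquiv.apply_symm_apply, H.s_t]
  ν_t := by rw [MulEquiv.apply_symm_apply, H.ν_t]

section space

variable {X : Set G} {Y : Type} [MetricSpace Y] {ι : G → Y}

theorem gprod_vertex (hd : ∀ a b, dist (ι a) (ι b) = (wl X (a⁻¹ * b) : ℝ)) (o a b : G) :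
    gprod (ι o) (ι a) (ι b) = gp X (o⁻¹ * a) (o⁻¹ * b) := by
  unfold gprod gp
  rw [dist_comm (ι a), dist_comm (ι b), hd, hd, hd]
  have : (o⁻¹ * a)⁻¹ * (o⁻¹ * b) = a⁻¹ * b := by group
  rw [this]

theorem gprod_near {Z : Type} [MetricSpace Z] {o o' x x' y y' : Z} (h1 : dist o o' ≤ 1) (h2 : dist x x' ≤ 1)
    (h3 : dist y y' ≤ 1) : gprod o x y ≤ gprod o' x' y' + 3 := by
  unfold gprod
  have e1 := dist_triangle x x' o
  have e2 := dist_triangle x' o' o
  have e3 := dist_triangle y y' o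
  have e4 := dist_triangle y' o' o
  have e5 := dist_triangle x' x y'
  have e6 := dist_triangle x y y'
  rw [dist_comm o' o] at e2 e4
  rw [dist_comm x' x] at e5
  linarith

theorem hyperbolic_of (hd : ∀ a b, dist (ι a) (ι b) = (wl X (a⁻¹ * b) : ℝ))
    (hden : ∀ x : Y, ∃ a, dist x (ι a) ≤ 1) (hX : Hyperbolic X) : GromovHyperbolic Y := by
  obtain ⟨δ, hδ⟩ := hX
  refine ⟨δ + 6, fun o x y z => ?_⟩
  obtain ⟨o', ho⟩ := hden o
  obtain ⟨x', hx⟩ := hden x
  obtain ⟨y', hy⟩ := hden y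
  obtain ⟨z', hz⟩ := hden z
  have h1 := hδ (o'⁻¹ * x') (o'⁻¹ * z') (o'⁻¹ * y')
  rw [← gprod_vertex hd, ← gprod_vertex hd, ← gprod_vertex hd] at h1
  have h2 := gprod_near ho hx hz
  have h3 := gprod_near ho hz hy
  have h4 := gprod_near (o := ι o') (o' := o) (x := ι x') (x' := x) (y := ι y') (y' := y)
    (by rw [dist_comm]; exact ho) (by rw [dist_comm]; exact hx) (by rw [dist_comm]; exact hy)
  have h5 : min (gprod o x z) (gprod o z y) ≤
      min (gprod (ι o') (ι x') (ι z')) (gprod (ι o') (ι z') (ι y')) + 3 := by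
    rw [← min_add_add_right]
    exact min_le_min h2 h3
  linarith

end space

/-- The sequence of vertices attached to a sequence. -/
theorem exists_seq {X : Set G} {Y : Type} [MetricSpace Y] {ι : G → Y}
    (hd : ∀ a b, dist (ι a) (ι b) = (wl X (a⁻¹ * b) : ℝ)) (u : HS.GromovSeq X) :
    ∃ v : Pool.Agent.Helper376.LC.GromovSeq Y, ∀ n, v.seq n = ι (u.seq n) := by
  obtain ⟨v, hv⟩ := exists_gromovSeq (ι 1) (fun n => ι (u.seq n)) (fun R => by
    obtain ⟨N, hN⟩ := u.conv R
    refine ⟨N, fun m hm n hn => ?_⟩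
    rw [gprod_vertex hd, inv_one, one_mul, one_mul]
    exact hN m n hm hn)
  exact ⟨v, fun n => congrFun hv n⟩

theorem equiv_iff {X : Set G} {Y : Type} [MetricSpace Y] {ι : G → Y}
    (hd : ∀ a b, dist (ι a) (ι b) = (wl X (a⁻¹ * b) : ℝ)) {u v : HS.GromovSeq X}
    {u' v' : Pool.Agent.Helper376.LC.GromovSeq Y} (hu : ∀ n, u'.seq n = ι (u.seq n))
    (hv : ∀ n, v'.seq n = ι (v.seq n)) (hX : Hyperbolic X) : u'.Equiv v' ↔ u.Equiv v := by
  constructor
  · intro h K
    obtain ⟨δ, hδ⟩ := hX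
    obtain ⟨N, hN⟩ := h (ι 1) (K + δ)
    obtain ⟨N', hN'⟩ := u.conv (K + δ)
    refine ⟨max N N', fun m n hm hn => ?_⟩
    have h1 := hN n ((le_max_left _ _).trans hn)
    rw [hu, hv, gprod_vertex hd, inv_one, one_mul, one_mul] at h1
    have h2 := hN' m n ((le_max_right _ _).trans hm) ((le_max_right _ _).trans hn)
    have h3 := hδ (u.seq m) (u.seq n) (v.seq n)
    have h4 := le_min h2 h1
    linarith
  · intro h
    apply GromovSeq.equiv_of_base (ι 1)
    intro R
    obtain ⟨N, hN⟩ := h R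
    refine ⟨N, fun n hn => ?_⟩
    rw [hu, hv, gprod_vertex hd, inv_one, one_mul, one_mul]
    exact hN n n hn hn

theorem exists_focal (H : Horo G) {a : G} (ha : 0 < H.ν ((H.t * a)⁻¹ * a)) :
    ∃ (Y : Type) (_ : MetricSpace Y) (_ : MulAction G Y),
      (GeodesicSpace Y ∧ GromovHyperbolic Y ∧ Isometric G Y ∧ Cobounded G Y ∧ Focal G Y) ∧
      ∃ o : Y, ∀ g : G, H.M g ≤ dist o (g • o) + H.c₂ := by
  obtain ⟨Y, m, act, ι, hgeo, hiso, hd, hι, hden⟩ := exists_cayley H.closure_X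
  have hhyp : GromovHyperbolic Y := hyperbolic_of hd hden H.hyperbolic
  have hι1 : ∀ g : G, g • ι 1 = ι g := fun g => by rw [← hι, mul_one]
  -- loxodromic elements
  have hlox : ∀ g : G, H.s g ≠ 0 → Loxodromic Y g := by
    intro g hg
    obtain ⟨c, hc, h⟩ := H.lox_of_s hg
    refine ⟨ι 1, c, hc, fun n => ?_⟩
    rw [hι1, hd, inv_one, one_mul]
    exact h n
  choose up' hup' using fun g => exists_seq hd (H.up g)
  choose down' hdown' using fun g => exists_seq hd (H.down g)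
  have hfixup : ∀ g : G, Fixes g (up' 1).lim := by
    intro g
    refine ⟨up' 1, up' g, rfl, Quot.sound ?_, fun n => ?_⟩
    · exact (equiv_iff hd (hup' g) (hup' 1) H.hyperbolic).2 (H.up_equiv g 1)
    · rw [hup', hup', ← hι]
      show ι (g * H.t ^ n) = ι (g * (1 * H.t ^ n))
      rw [one_mul]
  -- the boundary point of `a t ^ (-n)`
  have hdown_fix : Fixes (a * H.t * a⁻¹) (down' a).lim := by
    obtain ⟨w, hw⟩ := exists_seq hd (H.down (a * H.t))
    refine ⟨down' a, w, rfl, Quot.sound ?_, fun n => ?_⟩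
    · refine (equiv_iff hd hw (hdown' a) H.hyperbolic).2 ?_
      intro K
      obtain ⟨N, hN⟩ := (H.down a).conv K
      refine ⟨N + 1, fun m n hm hn => ?_⟩
      have h1 := hN (m - 1) n (by omega) (by omega)
      have e : (H.down (a * H.t)).seq m = (H.down a).seq (m - 1) := by
        show a * H.t * (H.t ^ m)⁻¹ = a * (H.t ^ (m - 1))⁻¹
        obtain ⟨k, rfl⟩ : ∃ k, m = k + 1 := ⟨m - 1, by omega⟩
        rw [Nat.add_sub_cancel, pow_succ']
        group
      rw [e]
      exact h1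
    · rw [hw, hdown', ← hι]
      congr 1
      show a * H.t * (H.t ^ n)⁻¹ = a * H.t * a⁻¹ * (a * (H.t ^ n)⁻¹)
      group
  have hdown_not : ¬ Fixes H.t (down' a).lim := by
    rintro ⟨u, v, hu, hv, huv⟩
    have h1 := (GromovSeq.lim_eq_iff hhyp u (down' a)).1 hu
    have h2 := (GromovSeq.lim_eq_iff hhyp v (down' a)).1 hv
    -- translate the first equivalence
    have h3 : v.Equiv (down' (H.t * a)) := by
      intro o R
      obtain ⟨N, hN⟩ := h1 (H.t⁻¹ • o) R
      refine ⟨N, fun n hn => ?_⟩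
      have h4 := hN n hn
      unfold gprod at h4 ⊢
      rw [huv, hdown']
      rw [hdown'] at h4
      have e1 : ι ((H.down (H.t * a)).seq n) = H.t • ι ((H.down a).seq n) := by
        rw [← hι]
        congr 1
        show H.t * a * (H.t ^ n)⁻¹ = H.t * (a * (H.t ^ n)⁻¹)
        group
      have e2 : ∀ x : Y, dist x (H.t⁻¹ • o) = dist (H.t • x) o := by
        intro x
        rw [← hiso H.t x (H.t⁻¹ • o), smul_inv_smul]
      rw [e1, hiso, ← e2, ← e2]
      exact h4
    have heq := equiv_equivalence hhyp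
    have h5 := heq.trans (heq.symm h3) h2
    rw [equiv_iff hd (hdown' (H.t * a)) (hdown' a) H.hyperbolic] at h5
    exact H.down_not_equiv ha h5
  have ht : Loxodromic Y H.t := hlox _ (by rw [H.s_t]; norm_num)
  refine ⟨Y, m, act, ⟨hgeo, hhyp, hiso, ?_, ?_, ⟨H.t, ht⟩, ?_⟩, ι 1, ?_⟩
  · refine ⟨ι 1, 1, fun y => ?_⟩
    obtain ⟨b, hb⟩ := hden y
    exact ⟨b, by rw [hι1]; exact hb⟩
  · rintro ⟨-, h⟩
    have h1 := h (a * H.t * a⁻¹) H.t (hlox _ (by
      rw [H.s_mul, H.s_mul, H.s_inv, H.s_t]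
      omega)) ht (down' a).lim
    exact hdown_not (h1.1 hdown_fix)
  · intro g h _ _
    exact ⟨_, hfixup g, hfixup h⟩
  · intro g
    rw [hι1, hd, inv_one, one_mul]
    have h1 := H.le_wl g
    have h2 := H.s_le_M g
    unfold Horo.D at h1
    linarith

end Pool.Agent.Q104.PH
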