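import Pool.Agent.Q104.PH.Focal
import Pool.Agent.Q104.HS.FG

set_option autoImplicit false

/-!
# Wreath products with the integers have property (PH') from two focal actions
-/

open Pointwise

namespace Pool.Agent.Q104.PH

open Pool.Agent.Helper376.LC Pool.Agent.Q104.QP Pool.Agent.Q104.HS

/-- A finite family of horocyclic data which is proper gives property (PH'). -/
theorem ph'_of_horo {G : Type} [Group G] {n : ℕ} (H : Fin n → Horo G) (a : Fin n → G)
    (ha : ∀ i, 0 < (H i).ν (((H i).t * a i)⁻¹ * a i))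
    (hfin : ∀ C : ℝ, {g : G | ∀ i, (H i).M g ≤ C}.Finite) : PH' G := by
  have h := fun i => exists_focal (H i) (ha i)
  choose Y m act hY o ho using h
  refine ⟨n, Y, m, act, fun i => ⟨(hY i).1, (hY i).2.1, (hY i).2.2.1, (hY i).2.2.2.1,
    Or.inl (hY i).2.2.2.2⟩, ?_⟩
  rintro B ⟨R, hR⟩
  rcases B.eq_empty_or_nonempty with rfl | ⟨x₀, hx₀⟩
  · simp
  set K : ℝ := ∑ i, dist (o i) (x₀ i) with hK
  set C₂ : ℝ := ∑ i, (H i).c₂ with hC₂
  refine (hfin (2 * (K + R) + R + C₂)).subset ?_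
  rintro g ⟨x, hx, hgx⟩ i
  have hi : ∀ y ∈ B, ∀ z ∈ B, dist (y i) (z i) ≤ R := fun y hy z hz =>
    (Finset.single_le_sum (f := fun j => dist (y j) (z j)) (fun j _ => dist_nonneg)
      (Finset.mem_univ i)).trans (hR y hy z hz)
  have h1 := ho i g
  have h2 : (H i).c₂ ≤ C₂ :=
    Finset.single_le_sum (f := fun j => (H j).c₂) (fun j _ => (H j).c₂_nonneg) (Finset.mem_univ i)
  have h3 : dist (o i) (x₀ i) ≤ K :=
    Finset.single_le_sum (f := fun j => dist (o j) (x₀ j)) (fun j _ => dist_nonneg)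
      (Finset.mem_univ i)
  have h4 := hi _ hx₀ _ hx
  have h5 := hi _ hx _ hgx
  have h6 : dist (o i) (g • o i) ≤
      dist (o i) (x i) + dist (x i) (g • x i) + dist (g • x i) (g • o i) := dist_triangle4 _ _ _ _
  have h7 : dist (g • x i) (g • o i) = dist (o i) (x i) := by
    rw [(hY i).2.2.1 g, dist_comm]
  have h8 : dist (o i) (x i) ≤ dist (o i) (x₀ i) + dist (x₀ i) (x i) := dist_triangle _ _ _
  linarith

/-- Property (PH') passes to the whole group seen as a subgroup. -/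
theorem ph_of_horo {G : Type} [Group G] {n : ℕ} (H : Fin n → Horo G) (a : Fin n → G)
    (ha : ∀ i, 0 < (H i).ν (((H i).t * a i)⁻¹ * a i))
    (hfin : ∀ C : ℝ, {g : G | ∀ i, (H i).M g ≤ C}.Finite) : PH G := by
  refine ⟨⊤, inferInstance, ?_⟩
  let e : (⊤ : Subgroup G) ≃* G := Subgroup.topEquiv
  refine ph'_of_horo (fun i => comap e (H i)) (fun i => e.symm (a i)) (fun i => ?_) (fun C => ?_)
  · show 0 < (H i).ν (e ((e.symm (H i).t * e.symm (a i))⁻¹ * e.symm (a i)))
    rw [map_mul, map_inv, map_mul, MulEquiv.apply_symm_apply, MulEquiv.apply_symm_apply]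
    exact ha i
  · have : {g : (⊤ : Subgroup G) | ∀ i, (comap e (H i)).M g ≤ C} =
        e ⁻¹' {g : G | ∀ i, (H i).M g ≤ C} := rfl
    rw [this]
    exact (hfin C).preimage e.injective.injOn

namespace Wr

open Pool.Agent.Q104.HS.Wr

variable {A : Type} [Group A]

/-- The automorphism which reverses the integers. -/
def flip : Wr A ≃* Wr A where
  toFun x := ⟨fun n => x.f (-n), -x.s,
    x.fin.preimage (f := fun n : ℤ => -n) (fun a _ b _ (h : -a = -b) => neg_injective h)⟩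
  invFun x := ⟨fun n => x.f (-n), -x.s,
    x.fin.preimage (f := fun n : ℤ => -n) (fun a _ b _ (h : -a = -b) => neg_injective h)⟩
  left_inv x := by
    ext n
    · show x.f (- -n) = x.f n
      rw [neg_neg]
    · show - -x.s = x.s
      rw [neg_neg]
  right_inv x := by
    ext n
    · show x.f (- -n) = x.f n
      rw [neg_neg]
    · show - -x.s = x.s
      rw [neg_neg]
  map_mul' x y := by
    ext n
    · show x.f (-n) * y.f (-n - x.s) = x.f (-n) * y.f (-(n - -x.s))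
      congr 2
      ring
    · show -(x.s + y.s) = -x.s + -y.s
      ring

/-- The word length as a length function. -/
noncomputable abbrev Hw (L : Len A) : Fin 2 → Horo (Wr A) :=
  ![horo L 2 one_lt_two, comap flip (horo L 2 one_lt_two)]

theorem nu_gen (L : Len A) {a : A} (ha : L.l a ≠ 0) :
    0 < nu L 2 ((t * δ 0 a)⁻¹ * δ 0 a : Wr A).f := by
  have h1 := nu_ge L two_pos ((t * δ 0 a)⁻¹ * δ 0 a : Wr A).fin (-1)
  refine lt_of_lt_of_le ?_ h1
  have e : ((t * δ 0 a)⁻¹ * δ 0 a : Wr A).f (-1) = a := by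
    rw [mul_f, inv_f, inv_s, mul_f, mul_s]
    show ((1 : A) * (δ 0 a).f (-1 + (1 + 0) - 1))⁻¹ * (δ 0 a).f (-1 - -(1 + 0)) = a
    rw [show (-1 + (1 + 0) - 1 : ℤ) = -1 by norm_num, show (-1 - -(1 + 0) : ℤ) = 0 by norm_num,
      δ_f_same, δ_f_ne (by norm_num)]
    simp
  rw [e]
  have : (0 : ℝ) < L.l a := by exact_mod_cast Nat.pos_of_ne_zero ha
  positivity

theorem finite_set (L : Len A) (h0 : ∀ K : ℕ, {a | L.l a ≤ K}.Finite) (N K : ℕ) :
    {g : Wr A | |g.s| ≤ N ∧ (∀ n, L.l (g.f n) ≤ K) ∧ ∀ n, (N : ℤ) < |n| → g.f n = 1}.Finite := by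
  classical
  let F : Wr A → ℤ × (Finset.Icc (-(N : ℤ)) N → A) := fun g => (g.s, fun n => g.f n.1)
  apply Set.Finite.of_finite_image (f := F)
  · apply Set.Finite.subset (s := (Set.Icc (-(N : ℤ)) N) ×ˢ
      (Set.pi Set.univ fun _ : Finset.Icc (-(N : ℤ)) N => {a : A | L.l a ≤ K}))
    · exact (Set.finite_Icc _ _).prod (Set.Finite.pi fun _ => h0 K)
    · rintro _ ⟨g, ⟨h1, h2, -⟩, rfl⟩
      refine ⟨abs_le.1 h1, fun n _ => h2 n.1⟩
  · rintro g ⟨-, -, h1⟩ g' ⟨-, -, h2⟩ heq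
    have e1 : g.s = g'.s := congrArg Prod.fst heq
    have e2 : (fun n : Finset.Icc (-(N : ℤ)) N => g.f n.1) = fun n => g'.f n.1 :=
      congrArg Prod.snd heq
    ext n
    · by_cases hn : |n| ≤ N
      · exact congrFun e2 ⟨n, Finset.mem_Icc.2 (abs_le.1 hn)⟩
      · push Not at hn
        rw [h1 n hn, h2 n hn]
    · exact e1

theorem proper (L : Len A) (hpos : ∀ a, L.l a = 0 → a = 1) (h0 : ∀ K : ℕ, {a | L.l a ≤ K}.Finite)
    (C : ℝ) : {g : Wr A | ∀ i, (Hw L i).M g ≤ C}.Finite := by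
  rcases lt_or_ge C 0 with hC | hC
  · convert Set.finite_empty
    ext g
    simp only [Set.mem_ofPred_eq, Set.mem_empty_iff_false, iff_false]
    intro h
    have := (Hw L 0).M_nonneg g
    linarith [h 0]
  refine (finite_set L h0 ⌊C⌋₊ ⌊(2 : ℝ) ^ C⌋₊).subset ?_
  intro g hg
  have h1 := ((horo L 2 one_lt_two).M_le_iff g C).1 (hg 0)
  have h2 := ((horo L 2 one_lt_two).M_le_iff (flip g) C).1 (hg 1)
  obtain ⟨-, h1s, h1n⟩ := h1
  obtain ⟨-, h2s, h2n⟩ := h2
  have hs1 : (g.s : ℝ) ≤ C := h1s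
  have hs2 : ((-g.s : ℤ) : ℝ) ≤ C := h2s
  have hν1 : nu L 2 g.f ≤ 2 ^ C := h1n
  have hν2 : nu L 2 (flip g).f ≤ 2 ^ C := h2n
  have k1 : ∀ n : ℤ, (2 : ℝ) ^ n * L.l (g.f n) ≤ 2 ^ C := fun n =>
    (nu_ge L two_pos g.fin n).trans hν1
  have k2 : ∀ n : ℤ, (2 : ℝ) ^ (-n) * L.l (g.f n) ≤ 2 ^ C := fun n => by
    have := (nu_ge L two_pos (flip g).fin (-n)).trans hν2
    have e : (flip g).f (-n) = g.f n := by
      show g.f (- -n) = g.f n
      rw [neg_neg]
    rwa [e] at this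
  have k3 : ∀ n : ℤ, (2 : ℝ) ^ |n| * L.l (g.f n) ≤ 2 ^ C := fun n => by
    rcases abs_choice n with h | h <;> rw [h]
    · exact k1 n
    · exact k2 n
  refine ⟨?_, fun n => ?_, fun n hn => ?_⟩
  · have h3 : ((|g.s| : ℤ) : ℝ) ≤ C := by
      rcases abs_choice g.s with h | h <;> rw [h]
      · exact hs1
      · exact hs2
    have h4 : (g.s.natAbs : ℝ) ≤ C := by
      rw [← Int.cast_natCast, Int.natCast_natAbs]
      exact h3
    have h5 := Nat.le_floor h4
    rw [Int.abs_eq_natAbs]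
    exact_mod_cast h5
  · apply Nat.le_floor
    have h3 := k3 n
    have h4 : (1 : ℝ) ≤ 2 ^ |n| := one_le_zpow₀ (by norm_num) (abs_nonneg n)
    have h5 : (0 : ℝ) ≤ L.l (g.f n) := by positivity
    nlinarith
  · apply hpos
    by_contra hne
    have h3 := k3 n
    have h4 : (1 : ℝ) ≤ L.l (g.f n) := by exact_mod_cast Nat.one_le_iff_ne_zero.2 hne
    have h5 : (2 : ℝ) ^ |n| ≤ 2 ^ C := by
      have : (0 : ℝ) < 2 ^ |n| := by positivity
      nlinarith
    rw [← Real.rpow_intCast, Real.rpow_le_rpow_left_iff one_lt_two] at h5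
    have h6 : C < ⌊C⌋₊ + 1 := Nat.lt_floor_add_one C
    have h7 : ((⌊C⌋₊ : ℤ) : ℝ) + 1 ≤ ((|n| : ℤ) : ℝ) := by exact_mod_cast hn
    push_cast at h5 h7
    linarith

end Wr

open Pool.Agent.Q104.HS.Wr in
/-- Wreath products of nontrivial finitely generated groups with the integers have property (PH)
from focal actions. -/
theorem ph_wreath (A : Type) [Group A] [Group.FG A] [Nontrivial A] : PH (Wr A) := by
  obtain ⟨n, S, hn, hS⟩ := (Group.fg_iff' (G := A)).1 inferInstance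
  obtain ⟨a, ha⟩ := exists_ne (1 : A)
  have hpos : ∀ a, (wlen hS).l a = 0 → a = 1 := by
    intro a h
    have h1 := wl_spec hS a
    change wl (S : Set A) a = 0 at h
    rw [h, pow_zero] at h1
    exact h1
  have h0 : ∀ K : ℕ, {a | (wlen hS).l a ≤ K}.Finite := by
    intro K
    have hfin' : ((S : Set A) ∪ (S : Set A)⁻¹).Finite := S.finite_toSet.union S.finite_toSet.inv
    have : {a | (wlen hS).l a ≤ K} ⊆ ⋃ k ∈ Finset.range (K + 1),
        ((S : Set A) ∪ (S : Set A)⁻¹) ^ k := by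
      intro g hg
      simp only [Set.mem_iUnion]
      exact ⟨wl S g, Finset.mem_range.2 (Nat.lt_succ_of_le (show wl (S : Set A) g ≤ K from hg)),
        wl_spec hS g⟩
    refine Set.Finite.subset (Set.Finite.biUnion (Finset.finite_toSet _) (fun k hk => ?_)) this
    clear hk
    induction k with
    | zero => rw [pow_zero]; exact Set.finite_one
    | succ k ih => rw [pow_succ]; exact ih.mul hfin'
  refine ph_of_horo (Wr.Hw (wlen hS)) ![δ 0 a, Wr.flip.symm (δ 0 a)] (fun i => ?_)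
    (Wr.proper (wlen hS) hpos h0)
  have hg := Wr.nu_gen (wlen hS) (a := a) (fun h => ha (hpos a h))
  fin_cases i
  · exact hg
  · show 0 < nu (wlen hS) 2 (Wr.flip ((Wr.flip.symm t * Wr.flip.symm (δ 0 a))⁻¹ *
      Wr.flip.symm (δ 0 a))).f
    rw [map_mul, map_inv, map_mul, MulEquiv.apply_symm_apply, MulEquiv.apply_symm_apply]
    exact hg

end Pool.Agent.Q104.PH
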