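import Pool.Agent.Q104.PH.Main

set_option autoImplicit false

/-!
# Wreath products of free groups with the integers are not amenable
-/

namespace Pool.Agent.Q104.PH

open Pool.Agent.Q104.HS

/-- The free group on two generators. -/
abbrev F2 : Type := FreeGroup Bool

/-- The reduced words starting with the letter `p`. -/
def W (p : Bool × Bool) : Set F2 := {g | ∃ l, g.toWord = p :: l}

/-- The element of `F2` given by a letter. -/
def letter (p : Bool × Bool) : F2 := FreeGroup.mk [p]

theorem letter_mul_toWord (p : Bool × Bool) (g : F2) (h : g ∉ W (p.1, !p.2)) :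
    (letter p * g).toWord = p :: g.toWord := by
  have h1 : letter p * g = FreeGroup.mk (p :: g.toWord) := by
    conv_lhs => rw [← FreeGroup.mk_toWord (x := g)]
    rfl
  rw [h1, FreeGroup.toWord_mk, FreeGroup.reduce.cons, FreeGroup.reduce_toWord]
  cases hg : g.toWord with
  | nil => rfl
  | cons q l =>
    have : ¬ (p.1 = q.1 ∧ p.2 = !q.2) := by
      rintro ⟨h2, h3⟩
      apply h
      refine ⟨l, ?_⟩
      rw [hg, h2, h3, Bool.not_not]
    simp only [this, if_false]

theorem cover (x : Bool) (g : F2) : g ∈ W (x, true) ∨ letter (x, false) * g ∈ W (x, false) := by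
  by_cases h : g ∈ W (x, true)
  · exact Or.inl h
  · right
    have := letter_mul_toWord (x, false) g h
    exact ⟨_, this⟩

theorem W_disjoint {p q : Bool × Bool} (h : p ≠ q) : Disjoint (W p) (W q) := by
  rw [Set.disjoint_left]
  rintro g ⟨l, hl⟩ ⟨l', hl'⟩
  rw [hl] at hl'
  exact h (List.cons.inj hl').1

theorem F2_not_amenable : ¬ Amenable F2 := by
  rintro ⟨μ, h0, h1, hadd, hinv⟩
  have hmono : ∀ A B : Set F2, A ⊆ B → μ A ≤ μ B := by
    intro A B hAB
    have := hadd A (B \ A) Set.disjoint_sdiff_right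
    rw [Set.union_sdiff_cancel hAB] at this
    linarith [h0 (B \ A)]
  have hsub : ∀ A B : Set F2, μ (A ∪ B) ≤ μ A + μ B := by
    intro A B
    have h2 := hadd A (B \ A) Set.disjoint_sdiff_right
    rw [Set.union_sdiff_self] at h2
    linarith [hmono (B \ A) B Set.sdiff_subset]
  have key : ∀ x : Bool, 1 ≤ μ (W (x, true)) + μ (W (x, false)) := by
    intro x
    have h2 : W (x, true) ∪ {g | letter (x, false) * g ∈ W (x, false)} = Set.univ := by
      ext g
      simpa using cover x g
    have h3 := hsub (W (x, true)) {g | letter (x, false) * g ∈ W (x, false)}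
    rw [h2, h1, hinv] at h3
    exact h3
  have d1 : Disjoint (W (false, true)) (W (false, false)) := W_disjoint (by decide)
  have d2 : Disjoint (W (true, true)) (W (true, false)) := W_disjoint (by decide)
  have d3 : Disjoint (W (false, true) ∪ W (false, false)) (W (true, true) ∪ W (true, false)) := by
    rw [Set.disjoint_union_left, Set.disjoint_union_right, Set.disjoint_union_right]
    exact ⟨⟨W_disjoint (by decide), W_disjoint (by decide)⟩,
      ⟨W_disjoint (by decide), W_disjoint (by decide)⟩⟩
  have h4 := hadd _ _ d3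
  rw [hadd _ _ d1, hadd _ _ d2] at h4
  have h5 := hmono _ Set.univ (Set.subset_univ
    ((W (false, true) ∪ W (false, false)) ∪ (W (true, true) ∪ W (true, false))))
  rw [h1, h4] at h5
  linarith [key false, key true]

theorem wr_not_amenable : ¬ Amenable (Wr F2) := by
  rintro ⟨μ, h0, h1, hadd, hinv⟩
  refine F2_not_amenable ⟨fun B => μ {x | x.f 0 ∈ B}, fun _ => h0 _, h1, ?_, ?_⟩
  · intro A B hAB
    refine hadd {x : Wr F2 | x.f 0 ∈ A} {x : Wr F2 | x.f 0 ∈ B} ?_
    rw [Set.disjoint_left] at hAB ⊢
    intro s hs hs'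
    exact hAB hs hs'
  · intro a B
    have h2 := hinv (Wr.δ 0 a) {x | x.f 0 ∈ B}
    have e : {x : Wr F2 | Wr.δ 0 a * x ∈ {x : Wr F2 | x.f 0 ∈ B}} =
        {x : Wr F2 | x.f 0 ∈ {g | a * g ∈ B}} := by
      ext x
      have e1 : (Wr.δ 0 a * x).f 0 = a * x.f 0 := by
        rw [Wr.mul_f, Wr.δ_f_same]
        show a * x.f (0 - 0) = a * x.f 0
        rw [sub_zero]
      show (Wr.δ 0 a * x).f 0 ∈ B ↔ a * x.f 0 ∈ B
      rw [e1]
    rw [e] at h2
    exact h2

end Pool.Agent.Q104.PH
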